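import Pool.Agent.V11309.Tor.Main

set_option autoImplicit false

/-!
# Torsion in the fundamental group of random cubical 2-complexes

`Q₂(n,p)` contains all vertices and edges of the `n`-cube, and every square independently with
probability `p`.  For every fixed `0 < p < 1 - (1/2)^(1/6) ≈ 0.109` the fundamental group has an
element of order two with high probability.  So it is not torsion free with high probability for
`p` slightly above `1 - (1/2)^(1/40) ≈ 0.017`, which answers the question in the negative.

Idea: six edges `e₁, …, e₆` of a 4-dimensional cube form the cross edges of a Möbius band of six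
squares.  If (in a 5-dimensional subcube) all squares containing an even number of these edges are
present, and all squares of the whole complex with an odd number of them are absent, then the core
of the band has order two: its square bounds in a parallel copy, and counting crossings of the six
edges modulo two is a homomorphism to `ℤ/2`.  Only the squares at six edges have to be absent, at a
cost `(1-p)^(6n)` per subcube, and there are `2^(n-6)` independent subcubes.
-/

namespace Pool.Agent.Results.MP_422525_pr.TorsionAppears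

open Pool.Agent.V11309.Tor MeasureTheory Filter Topology

theorem result :
    -- for every fixed `p` below `1 - (1/2)^(1/6)`, w.h.p. there is an element of order two
    (∀ p : ℝ, 0 < p → p < 1 - (1 / 2 : ℝ) ^ (1 / 6 : ℝ) →
      Tendsto (fun n : ℕ => law n p {ω | ∃ x : Pi1 (cx ω), x ≠ 1 ∧ x ^ 2 = 1}) atTop (𝓝 1)) ∧
    -- this range reaches well above `1 - (1/2)^(1/40)`
    (1 - (1 / 2 : ℝ) ^ (1 / 40 : ℝ) < 1 / 10 ∧ 1 / 10 < 1 - (1 / 2 : ℝ) ^ (1 / 6 : ℝ)) ∧
    -- hence the statement asked about is false
    ¬ (∀ p : ℝ, 1 - (1 / 2 : ℝ) ^ (1 / 40 : ℝ) < p → p ≤ 1 →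
      Tendsto (fun n : ℕ => law n p {ω | ∀ x : Pi1 (cx ω), IsOfFinOrder x → x = 1})
        atTop (𝓝 1)) := by
  have hlow : 1 - (1 / 2 : ℝ) ^ (1 / 40 : ℝ) < 1 / 10 := by
    have h1 : ((9 / 10 : ℝ) ^ (40 : ℕ)) ^ (1 / 40 : ℝ) = 9 / 10 := by
      rw [← Real.rpow_natCast, ← Real.rpow_mul (by norm_num)]
      norm_num
    have h2 : ((9 / 10 : ℝ) ^ (40 : ℕ)) ^ (1 / 40 : ℝ) < (1 / 2 : ℝ) ^ (1 / 40 : ℝ) :=
      Real.rpow_lt_rpow (by positivity) (by norm_num) (by norm_num)
    rw [h1] at h2
    linarith
  have hhigh : 1 / 10 < 1 - (1 / 2 : ℝ) ^ (1 / 6 : ℝ) := by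
    have h1 : ((9 / 10 : ℝ) ^ (6 : ℕ)) ^ (1 / 6 : ℝ) = 9 / 10 := by
      rw [← Real.rpow_natCast, ← Real.rpow_mul (by norm_num)]
      norm_num
    have h2 : (1 / 2 : ℝ) ^ (1 / 6 : ℝ) < ((9 / 10 : ℝ) ^ (6 : ℕ)) ^ (1 / 6 : ℝ) :=
      Real.rpow_lt_rpow (by positivity) (by norm_num) (by norm_num)
    rw [h1] at h2
    linarith
  refine ⟨fun p h0 h1 => tendsto_torsion p h0 h1, ⟨hlow, hhigh⟩, ?_⟩
  intro hall
  have hT := hall (1 / 10) hlow (by norm_num)
  have hE := tendsto_torsion (1 / 10) (by norm_num) hhigh
  have hprob : ∀ n, IsProbabilityMeasure (law n (1 / 10)) := by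
    intro n
    have : IsProbabilityMeasure (coin (1 / 10)) := coin_prob _ (by norm_num) (by norm_num)
    unfold law
    infer_instance
  have hsum : ∀ n : ℕ, law n (1 / 10) {ω | ∀ x : Pi1 (cx ω), IsOfFinOrder x → x = 1} +
      law n (1 / 10) (TorsionEvent n) ≤ 1 := by
    intro n
    have := hprob n
    have hms : MeasurableSet (TorsionEvent n) := (Set.toFinite _).measurableSet
    have hd : Disjoint {ω : Square n → Bool | ∀ x : Pi1 (cx ω), IsOfFinOrder x → x = 1}
        (TorsionEvent n) := by
      rw [Set.disjoint_left]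
      rintro ω hω ⟨x, hx1, hx2⟩
      exact hx1 (hω x (isOfFinOrder_iff_pow_eq_one.2 ⟨2, by norm_num, hx2⟩))
    rw [← measure_union hd hms]
    exact prob_le_one
  have hlim := le_of_tendsto' (hT.add hE) hsum
  norm_num at hlim

end Pool.Agent.Results.MP_422525_pr.TorsionAppears
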